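import Pool.Agent.BSE.Stmts

/-! BSE, module IN4: the fourth moment of a point of the simplex. -/

set_option autoImplicit false

namespace Pool.Agent.BSE.H77

open Finset

theorem two (x y : ℝ) : ((x + y) ^ 4 + 6 * (x + y) ^ 2 * (x ^ 2 + y ^ 2) +
    3 * (x ^ 2 + y ^ 2) ^ 2 + 8 * (x + y) * (x ^ 3 + y ^ 3) + 6 * (x ^ 4 + y ^ 4)) ≤
    30 * (x ^ 2 + y ^ 2) ^ 2 := by
  have h : 30 * (x ^ 2 + y ^ 2) ^ 2 - ((x + y) ^ 4 + 6 * (x + y) ^ 2 * (x ^ 2 + y ^ 2) +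
    3 * (x ^ 2 + y ^ 2) ^ 2 + 8 * (x + y) * (x ^ 3 + y ^ 3) + 6 * (x ^ 4 + y ^ 4)) =
      6 * (x - y) ^ 4 := by ring
  have h2 : 0 ≤ 6 * (x - y) ^ 4 := by positivity
  linarith

/-- the inequality between the central sums -/
theorem core {b α d2 d3 d4 : ℝ} (hb : 3 ≤ b) (h2 : 0 ≤ d2) (h4 : 0 ≤ d4) (h3 : d3 ^ 2 ≤ d2 * d4)
    (h42 : d4 ≤ d2 ^ 2) :
    0 ≤ 2 * (b + 3) * (b ^ 2 - 4) * α ^ 2 * d2 - 8 * (b + 3) * α * d3 +
      (b ^ 2 + 6 * b + 8 + 6 / b) * d2 ^ 2 - 6 * d4 := by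
  have hb4 : 0 < b ^ 2 - 4 := by nlinarith
  have hb3 : 0 < b + 3 := by linarith
  -- the quadratic in `α`
  have hq : 0 ≤ 2 * (b + 3) * (b ^ 2 - 4) * α ^ 2 * d2 - 8 * (b + 3) * α * d3 +
      8 * (b + 3) * d4 / (b ^ 2 - 4) := by
    have e : 2 * (b + 3) * (b ^ 2 - 4) * α ^ 2 * d2 - 8 * (b + 3) * α * d3 +
      8 * (b + 3) * d4 / (b ^ 2 - 4) = 2 * (b + 3) / (b ^ 2 - 4) *
        (((b ^ 2 - 4) * α) ^ 2 * d2 - 4 * ((b ^ 2 - 4) * α) * d3 + 4 * d4) := by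
      field_simp
      ring
    rw [e]
    refine mul_nonneg (by positivity) ?_
    set z := (b ^ 2 - 4) * α
    rcases h2.lt_or_eq with hpos | hzero
    · have h5 : 0 ≤ d2 * (z ^ 2 * d2 - 4 * z * d3 + 4 * d4) := by
        have : d2 * (z ^ 2 * d2 - 4 * z * d3 + 4 * d4) = (z * d2 - 2 * d3) ^ 2 +
            4 * (d2 * d4 - d3 ^ 2) := by ring
        rw [this]
        nlinarith [sq_nonneg (z * d2 - 2 * d3)]
      exact nonneg_of_mul_nonneg_right h5 hpos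
    · rw [← hzero] at h3 h42 ⊢
      have h5 : d4 = 0 := by nlinarith
      have h6 : d3 = 0 := by
        rw [zero_mul] at h3
        exact pow_eq_zero_iff two_ne_zero |>.1 (le_antisymm h3 (sq_nonneg d3))
      rw [h5, h6]
      simp
  have hc : 8 * (b + 3) * d4 / (b ^ 2 - 4) + 6 * d4 ≤ (b ^ 2 + 6 * b + 8) * d2 ^ 2 := by
    have h7 : 8 * (b + 3) / (b ^ 2 - 4) + 6 ≤ b ^ 2 + 6 * b + 8 := by
      have h8 : 8 * (b + 3) ≤ (b ^ 2 + 6 * b + 2) * (b ^ 2 - 4) := by nlinarith [mul_pos hb3 hb4]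
      have h9 : 8 * (b + 3) / (b ^ 2 - 4) ≤ b ^ 2 + 6 * b + 2 := by
        rw [div_le_iff₀ hb4]
        exact h8
      linarith
    calc 8 * (b + 3) * d4 / (b ^ 2 - 4) + 6 * d4 = (8 * (b + 3) / (b ^ 2 - 4) + 6) * d4 := by ring
      _ ≤ (b ^ 2 + 6 * b + 8) * d4 := mul_le_mul_of_nonneg_right h7 h4
      _ ≤ (b ^ 2 + 6 * b + 8) * d2 ^ 2 := mul_le_mul_of_nonneg_left h42 (by positivity)
  have hd : 0 ≤ 6 / b * d2 ^ 2 := by positivity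
  nlinarith

theorem in4 : IN4Stmt := by
  intro n B hB a
  have hcard : 1 ≤ B.card := hB.card_pos
  rcases Nat.lt_or_ge B.card 2 with h1 | h1
  · -- one element
    obtain ⟨j, rfl⟩ := Finset.card_eq_one.1 (show B.card = 1 by omega)
    unfold q4
    simp only [Finset.sum_singleton, Finset.card_singleton, Nat.cast_one]
    rw [div_le_iff₀ (by norm_num)]
    apply le_of_eq
    ring
  rcases Nat.lt_or_ge B.card 3 with h2 | h2
  · obtain ⟨i, j, hij, rfl⟩ := Finset.card_eq_two.1 (show B.card = 2 by omega)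
    unfold q4
    rw [Finset.sum_pair hij, Finset.sum_pair hij, Finset.sum_pair hij, Finset.sum_pair hij,
      Finset.card_pair hij]
    have h := two (a i) (a j)
    push_cast
    rw [div_le_iff₀ (by norm_num)]
    linarith
  -- at least three elements
  obtain ⟨b, hb⟩ : ∃ b : ℝ, b = B.card := ⟨_, rfl⟩
  have hb3 : (3 : ℝ) ≤ b := by rw [hb]; exact_mod_cast h2
  have hb0 : b ≠ 0 := by linarith
  obtain ⟨α, hα⟩ : ∃ α : ℝ, α = (∑ j ∈ B, a j) / b := ⟨_, rfl⟩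
  obtain ⟨δ, hδ⟩ : ∃ δ : Fin n → ℝ, δ = fun j => a j - α := ⟨_, rfl⟩
  have haδ : ∀ j, a j = α + δ j := fun j => by rw [hδ]; ring
  have hp1 : ∑ j ∈ B, a j = b * α := by rw [hα]; field_simp
  have hsc : ∀ c : ℝ, ∑ _j ∈ B, c = b * c := fun c => by
    rw [Finset.sum_const, nsmul_eq_mul, hb]
  have hs : ∑ j ∈ B, δ j = 0 := by
    rw [hδ, Finset.sum_sub_distrib, hp1, hsc, sub_self]
  obtain ⟨d2, hd2⟩ : ∃ d2 : ℝ, d2 = ∑ j ∈ B, δ j ^ 2 := ⟨_, rfl⟩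
  obtain ⟨d3, hd3⟩ : ∃ d3 : ℝ, d3 = ∑ j ∈ B, δ j ^ 3 := ⟨_, rfl⟩
  obtain ⟨d4, hd4⟩ : ∃ d4 : ℝ, d4 = ∑ j ∈ B, δ j ^ 4 := ⟨_, rfl⟩
  have hp2 : ∑ j ∈ B, a j ^ 2 = b * α ^ 2 + d2 := by
    have e : ∀ j ∈ B, a j ^ 2 = α ^ 2 + 2 * α * δ j + δ j ^ 2 := fun j _ => by rw [haδ j]; ring
    rw [Finset.sum_congr rfl e, Finset.sum_add_distrib, Finset.sum_add_distrib, hsc,
      ← Finset.mul_sum, hs, hd2]
    ring
  have hp3 : ∑ j ∈ B, a j ^ 3 = b * α ^ 3 + 3 * α * d2 + d3 := by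
    have e : ∀ j ∈ B, a j ^ 3 = α ^ 3 + 3 * α ^ 2 * δ j + 3 * α * δ j ^ 2 + δ j ^ 3 :=
      fun j _ => by rw [haδ j]; ring
    rw [Finset.sum_congr rfl e, Finset.sum_add_distrib, Finset.sum_add_distrib,
      Finset.sum_add_distrib, hsc, ← Finset.mul_sum, ← Finset.mul_sum, hs, hd2, hd3]
    ring
  have hp4 : ∑ j ∈ B, a j ^ 4 = b * α ^ 4 + 6 * α ^ 2 * d2 + 4 * α * d3 + d4 := by
    have e : ∀ j ∈ B, a j ^ 4 = α ^ 4 + 4 * α ^ 3 * δ j + 6 * α ^ 2 * δ j ^ 2 +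
        4 * α * δ j ^ 3 + δ j ^ 4 := fun j _ => by rw [haδ j]; ring
    rw [Finset.sum_congr rfl e, Finset.sum_add_distrib, Finset.sum_add_distrib,
      Finset.sum_add_distrib, Finset.sum_add_distrib, hsc, ← Finset.mul_sum, ← Finset.mul_sum,
      ← Finset.mul_sum, hs, hd2, hd3, hd4]
    ring
  have h20 : 0 ≤ d2 := by rw [hd2]; exact Finset.sum_nonneg fun j _ => sq_nonneg _
  have h40 : 0 ≤ d4 := by rw [hd4]; exact Finset.sum_nonneg fun j _ => by positivity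
  have h3 : d3 ^ 2 ≤ d2 * d4 := by
    have h := Finset.sum_mul_sq_le_sq_mul_sq B δ fun j => δ j ^ 2
    rw [hd2, hd3, hd4]
    have e1 : ∑ j ∈ B, δ j ^ 3 = ∑ j ∈ B, δ j * δ j ^ 2 :=
      Finset.sum_congr rfl fun j _ => by ring
    have e2 : ∑ j ∈ B, δ j ^ 4 = ∑ j ∈ B, (δ j ^ 2) ^ 2 :=
      Finset.sum_congr rfl fun j _ => by ring
    rw [e1, e2]
    exact h
  have h42 : d4 ≤ d2 ^ 2 := by
    have h := Finset.sum_sq_le_sq_sum_of_nonneg (s := B) (f := fun j => δ j ^ 2) fun j _ => sq_nonneg _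
    rw [hd2, hd4]
    have e2 : ∑ j ∈ B, δ j ^ 4 = ∑ j ∈ B, (δ j ^ 2) ^ 2 :=
      Finset.sum_congr rfl fun j _ => by ring
    rw [e2]
    exact h
  have hcore := core (α := α) hb3 h20 h40 h3 h42
  unfold q4
  rw [hp1, hp2, hp3, hp4, ← hb]
  rw [div_le_iff₀ (by positivity)]
  have e : ((b * α ^ 2 + d2) / b) ^ 2 * (b * (b + 1) * (b + 2) * (b + 3)) -
      ((b * α) ^ 4 + 6 * (b * α) ^ 2 * (b * α ^ 2 + d2) + 3 * (b * α ^ 2 + d2) ^ 2 +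
        8 * (b * α) * (b * α ^ 3 + 3 * α * d2 + d3) +
        6 * (b * α ^ 4 + 6 * α ^ 2 * d2 + 4 * α * d3 + d4)) =
      2 * (b + 3) * (b ^ 2 - 4) * α ^ 2 * d2 - 8 * (b + 3) * α * d3 +
      (b ^ 2 + 6 * b + 8 + 6 / b) * d2 ^ 2 - 6 * d4 := by
    field_simp
    ring
  linarith

end Pool.Agent.BSE.H77
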